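import Mathlib

/-!
# MP_e67e26_co (Q1): factorizations of bi-infinite words over sets of full combinatorial rank

Let `X` be a finite set of non-empty words of combinatorial rank `|X|`.  Two `X`-factorizations of
a bi-infinite word each of which contains every element of `X` are shift-equivalent.  In fact it
suffices that every block of the second factorization occurs in the first one.

Idea.  A position of `w` is a *vertex* of a factorization: a cut, or a block together with an offset
inside it.  Every vertex of the second factorization is a vertex of the first one, so there is a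
cycle of positions `a 0, ..., a (k-1)` such that the vertex of the second factorization at `a i` is
the vertex of the first one at `a (i+1)`.  Take `k` minimal; then all the vertices in the cycle are
distinct, so at most one is a cut.  If one is a cut, the remaining suffixes of the blocks at the
other positions give a chain of words joining the next block `x` of the first factorization to
the next block `x'` of the second one, and the graph lemma (`graph_lemma`) shows that `x ≠ x'`
would give a set of size less than `|X|` generating `X`.  So the cycle can be moved to the right, and by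
symmetry to the left, by any amount.
-/

namespace Pool.Agent.Results.MP_e67e26_co.ShiftEquivalence

universe u

/-- `Gen Z` is `Z^*`, the set of all products of elements of `Z`. -/
def Gen {α : Type u} (Z : Set (List α)) : Set (List α) :=
  {l | ∃ L : List (List α), (∀ u ∈ L, u ∈ Z) ∧ L.flatten = l}

/-- The factor `w(a) w(a+1) ... w(a+n-1)` of a bi-infinite word. -/
def seg {α : Type u} (w : ℤ → α) (a : ℤ) (n : ℕ) : List α :=
  (List.range n).map (fun t : ℕ => w (a + t))

/-- The block `w(a) ... w(b-1)`. -/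
def block {α : Type u} (w : ℤ → α) (a b : ℤ) : List α := seg w a (b - a).toNat

/-- An `X`-factorization of the bi-infinite word `w`: a strictly increasing bi-infinite sequence
of cut points (automatically unbounded in both directions) all of whose blocks are in `X`. -/
structure IsFactorization {α : Type u} (X : Finset (List α)) (w : ℤ → α) (c : ℤ → ℤ) : Prop where
  strictMono : StrictMono c
  mem : ∀ i, block w (c i) (c (i + 1)) ∈ X

/-- The combinatorial rank: the least size of a set `Z` of non-empty words with `X ⊆ Z^*`. -/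
noncomputable def combRank {α : Type u} (X : Finset (List α)) : ℕ :=
  sInf {n | ∃ Z : Finset (List α), (∀ z ∈ Z, z ≠ []) ∧ (∀ x ∈ X, x ∈ Gen (Z : Set (List α))) ∧
    Z.card = n}

section gen
variable {α : Type u}

theorem Gen.nil (Z : Set (List α)) : ([] : List α) ∈ Gen Z := ⟨[], by simp, rfl⟩

theorem Gen.of_mem {Z : Set (List α)} {u : List α} (h : u ∈ Z) : u ∈ Gen Z :=
  ⟨[u], by simpa using h, by simp⟩

theorem Gen.append {Z : Set (List α)} {u v : List α} (hu : u ∈ Gen Z) (hv : v ∈ Gen Z) :
    u ++ v ∈ Gen Z := by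
  obtain ⟨L, hL, rfl⟩ := hu
  obtain ⟨M, hM, rfl⟩ := hv
  refine ⟨L ++ M, ?_, List.flatten_append⟩
  intro w hw
  rcases List.mem_append.mp hw with h | h
  · exact hL w h
  · exact hM w h

theorem Gen.trans {Z Z' : Set (List α)} (h : ∀ z ∈ Z, z ∈ Gen Z') {u : List α} (hu : u ∈ Gen Z) :
    u ∈ Gen Z' := by
  obtain ⟨L, hL, rfl⟩ := hu
  induction L with
  | nil => exact Gen.nil _
  | cons a L ih =>
    rw [List.flatten_cons]
    exact Gen.append (h a (hL a (by simp))) (ih (fun w hw => hL w (by simp [hw])))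

end gen

section defect
variable {α : Type u}

/-- Prepend a finite word to a right-infinite word. -/
def app (z : List α) (y : ℕ → α) : ℕ → α := fun n => if h : n < z.length then z[n] else y (n - z.length)

theorem app_nil (y : ℕ → α) : app [] y = y := by
  funext n; simp [app]

theorem app_append (u v : List α) (y : ℕ → α) : app (u ++ v) y = app u (app v y) := by
  funext n
  unfold app
  by_cases h1 : n < u.length
  · have h2 : n < (u ++ v).length := by rw [List.length_append]; omega
    simp only [h1, h2, dite_true, List.getElem_append_left]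
  · by_cases h2 : n < (u ++ v).length
    · have h3 : n - u.length < v.length := by rw [List.length_append] at h2; omega
      simp only [h1, h2, h3, dite_true, dite_false]
      rw [List.getElem_append_right (by omega)]
    · have h3 : ¬ n - u.length < v.length := by rw [List.length_append] at h2; omega
      simp only [h1, h2, h3, dite_false]
      rw [List.length_append]; congr 1; omega

theorem app_prefix {u v : List α} {y y' : ℕ → α} (h : app u y = app v y')
    (hl : u.length ≤ v.length) : ∃ s, v = u ++ s ∧ y = app s y' := by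
  have hpre : u <+: v := by
    rw [List.prefix_iff_getElem]
    refine ⟨hl, ?_⟩
    intro n hn
    have := congrFun h n
    unfold app at this
    rw [dif_pos hn, dif_pos (by omega)] at this
    exact this
  obtain ⟨s, rfl⟩ := hpre
  refine ⟨s, rfl, ?_⟩
  rw [app_append] at h
  funext n
  have := congrFun h (u.length + n)
  unfold app at this
  rw [dif_neg (by omega), dif_neg (by omega)] at this
  rw [show u.length + n - u.length = n by omega] at this
  exact this

/-- Two words `p, q` of `Y` are *linked* if `p u = q u'` for some `u, u'` in `T`. -/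
def Rel (Y : Finset (List α)) (T : Set (ℕ → α)) (p q : List α) : Prop :=
  p ∈ Y ∧ q ∈ Y ∧ ∃ u ∈ T, ∃ u' ∈ T, app p u = app q u'

theorem conn_map {A B : Type*} {r : A → A → Prop} {r' : B → B → Prop} (f : A → B)
    (h : ∀ a b, r a b → Relation.EqvGen r' (f a) (f b)) {a b : A} (hab : Relation.EqvGen r a b) :
    Relation.EqvGen r' (f a) (f b) := by
  induction hab with
  | rel x y hxy => exact h x y hxy
  | refl x => exact Relation.EqvGen.refl _
  | symm x y _ ih => exact Relation.EqvGen.symm _ _ ih
  | trans x y z _ _ ih1 ih2 => exact Relation.EqvGen.trans _ _ _ ih1 ih2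

/-- if all edges are loops, then connected vertices are equal -/
theorem eq_of_conn {A : Type*} {r : A → A → Prop} (h : ∀ a b, r a b → a = b) {a b : A}
    (hab : Relation.EqvGen r a b) : a = b := by
  induction hab with
  | rel x y hxy => exact h x y hxy
  | refl x => rfl
  | symm x y _ ih => exact ih.symm
  | trans x y z _ _ ih1 ih2 => exact ih1.trans ih2

open Classical in
/-- The graph lemma: if every word of `Y` is connected to a word of `S ⊆ Y`, then `Y ⊆ Z^*` for a
set `Z` of non-empty words with `|Z| ≤ |S|`. -/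
theorem graph_lemma (N : ℕ) : ∀ (Y : Finset (List α)), (∀ y ∈ Y, y ≠ []) →
    (∑ y ∈ Y, y.length) ≤ N → ∀ T : Set (ℕ → α), (∀ u ∈ T, ∃ z ∈ Y, ∃ u' ∈ T, u = app z u') →
    ∀ S : Finset (List α), S ⊆ Y → (∀ y ∈ Y, ∃ t ∈ S, Relation.EqvGen (Rel Y T) y t) →
    ∃ Z : Finset (List α), (∀ z ∈ Z, z ≠ []) ∧ Z.card ≤ S.card ∧
      ∀ y ∈ Y, y ∈ Gen (Z : Set (List α)) := by
  induction N with
  | zero =>
    intro Y hY hsum T hT S hS hconn
    refine ⟨S, fun z hz => hY z (hS hz), le_rfl, ?_⟩
    intro y hy
    exfalso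
    have h0 : y.length ≤ ∑ y ∈ Y, y.length :=
      Finset.single_le_sum (f := fun z : List α => z.length) (fun _ _ => Nat.zero_le _) hy
    exact hY y hy (List.length_eq_zero_iff.mp (by omega))
  | succ N ih =>
    intro Y hY hsum T hT S hS hconn
    by_cases hYS : ∀ y ∈ Y, y ∈ S
    · exact ⟨S, fun z hz => hY z (hS hz), le_rfl, fun y hy => Gen.of_mem (hYS y hy)⟩
    push Not at hYS
    obtain ⟨y₀, hy₀, hy₀S⟩ := hYS
    obtain ⟨t₀, ht₀, hct₀⟩ := hconn y₀ hy₀
    -- there is an edge between two different words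
    have hedge : ∃ p q, p ≠ q ∧ Rel Y T p q := by
      by_contra hno
      push Not at hno
      have : y₀ = t₀ := eq_of_conn (fun a b hab => by
        by_contra hne
        exact hno a b hne hab) hct₀
      exact hy₀S (this ▸ ht₀)
    have hedge' : ∃ p q, p ≠ q ∧ Rel Y T p q ∧ p.length ≤ q.length := by
      obtain ⟨p, q, hne, hp, hq, u, hu, u', hu', h⟩ := hedge
      rcases le_total p.length q.length with hl | hl
      · exact ⟨p, q, hne, ⟨hp, hq, u, hu, u', hu', h⟩, hl⟩
      · exact ⟨q, p, hne.symm, ⟨hq, hp, u', hu', u, hu, h.symm⟩, hl⟩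
    obtain ⟨p, q, hpq, ⟨hp, hq, u, hu, u', hu', heq⟩, hlen⟩ := hedge'
    obtain ⟨s, hs, hus⟩ := app_prefix heq hlen
    have hs0 : s ≠ [] := by
      rintro rfl
      exact hpq (by rw [hs, List.append_nil])
    have hlp : 0 < p.length := List.length_pos_iff.mpr (hY p hp)
    have hsl : s.length + p.length = q.length := by rw [hs, List.length_append]; omega
    set Y1 : Finset (List α) := insert s (Y.erase q) with hY1
    have hpY1 : p ∈ Y1 := Finset.mem_insert_of_mem (Finset.mem_erase.mpr ⟨hpq, hp⟩)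
    have hsY1 : s ∈ Y1 := Finset.mem_insert_self _ _
    have hmemY1 : ∀ y ∈ Y, y ≠ q → y ∈ Y1 := fun y hy hyq =>
      Finset.mem_insert_of_mem (Finset.mem_erase.mpr ⟨hyq, hy⟩)
    have hsum1 : (∑ z ∈ Y1, z.length) ≤ N := by
      have h3 := Finset.add_sum_erase Y (fun z : List α => z.length) hq
      have h4 : (∑ z ∈ Y1, z.length) ≤ s.length + ∑ z ∈ Y.erase q, z.length := by
        by_cases hsY : s ∈ Y.erase q
        · rw [hY1, Finset.insert_eq_of_mem hsY]; omega
        · rw [hY1, Finset.sum_insert hsY]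
      omega
    have hYY1 : ∀ y ∈ Y, y ∈ Gen (Y1 : Set (List α)) := by
      intro y hy
      by_cases hyq : y = q
      · rw [hyq, hs]
        exact Gen.append (Gen.of_mem hpY1) (Gen.of_mem hsY1)
      · exact Gen.of_mem (hmemY1 y hy hyq)
    set T1 : Set (ℕ → α) := T ∪ {v | ∃ v' ∈ T, v = app s v'} with hT1
    have hunroll : ∀ v ∈ T1, ∃ z ∈ Y1, ∃ v' ∈ T1, v = app z v' := by
      intro v hv
      rcases hv with hv | ⟨v', hv', rfl⟩
      · obtain ⟨z, hz, v', hv', rfl⟩ := hT v hv
        by_cases hzq : z = q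
        · refine ⟨p, hpY1, app s v', Or.inr ⟨v', hv', rfl⟩, ?_⟩
          rw [hzq, hs, app_append]
        · exact ⟨z, hmemY1 z hz hzq, v', Or.inl hv', rfl⟩
      · exact ⟨s, hsY1, v', Or.inl hv', rfl⟩
    have hne1 : ∀ z ∈ Y1, z ≠ [] := by
      intro z hz
      rcases Finset.mem_insert.mp hz with h | h
      · rw [h]; exact hs0
      · exact hY z (Finset.mem_of_mem_erase h)
    let f : List α → List α := fun y => if y = q then p else y
    have hfq : f q = p := by simp [f]
    have hf : ∀ y, y ≠ q → f y = y := fun y hy => by simp [f, hy]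
    have hfY1 : ∀ y ∈ Y, f y ∈ Y1 := by
      intro y hy
      by_cases hyq : y = q
      · rw [hyq, hfq]; exact hpY1
      · rw [hf y hyq]; exact hmemY1 y hy hyq
    -- splitting the right-infinite words `y v`
    have hfapp : ∀ y, ∀ v ∈ T, ∃ v' ∈ T1, app y v = app (f y) v' := by
      intro y v hv
      by_cases hyq : y = q
      · refine ⟨app s v, Or.inr ⟨v, hv, rfl⟩, ?_⟩
        rw [hyq, hfq, hs, app_append]
      · exact ⟨v, Or.inl hv, by rw [hf y hyq]⟩
    have hmap : ∀ y t, Relation.EqvGen (Rel Y T) y t → Relation.EqvGen (Rel Y1 T1) (f y) (f t) := by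
      intro y t hyt
      refine conn_map f ?_ hyt
      rintro a b ⟨ha, hb, v, hv, v', hv', h⟩
      obtain ⟨v1, hv1, h1⟩ := hfapp a v hv
      obtain ⟨v2, hv2, h2⟩ := hfapp b v' hv'
      exact Relation.EqvGen.rel _ _ ⟨hfY1 a ha, hfY1 b hb, v1, hv1, v2, hv2, by rw [← h1, ← h2, h]⟩
    have hconn1 : ∀ y ∈ Y, ∃ t ∈ S.image f, Relation.EqvGen (Rel Y1 T1) (f y) t := by
      intro y hy
      obtain ⟨t, ht, hyt⟩ := hconn y hy
      exact ⟨f t, Finset.mem_image_of_mem _ ht, hmap y t hyt⟩
    obtain ⟨Z, z1, z2, z3⟩ := ih Y1 hne1 hsum1 T1 hunroll (S.image f) (by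
        intro t ht
        obtain ⟨t', ht', rfl⟩ := Finset.mem_image.mp ht
        exact hfY1 t' (hS ht')) (by
        intro y hy
        rcases Finset.mem_insert.mp hy with h | h
        · -- the new word `s`
          subst h
          obtain ⟨z, hz, v, hv, hzv⟩ := hT u hu
          obtain ⟨t, ht, hzt⟩ := hconn1 z hz
          obtain ⟨v1, hv1, h1⟩ := hfapp z v hv
          refine ⟨t, ht, Relation.EqvGen.trans _ (f z) _ (Relation.EqvGen.rel _ _
            ⟨hsY1, hfY1 z hz, u', Or.inl hu', v1, hv1, ?_⟩) hzt⟩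
          rw [← h1, ← hzv, hus]
        · have hyq := Finset.ne_of_mem_erase h
          obtain ⟨t, ht, hyt⟩ := hconn1 y (Finset.mem_of_mem_erase h)
          rw [hf y hyq] at hyt
          exact ⟨t, ht, hyt⟩)
    exact ⟨Z, z1, z2.trans Finset.card_image_le, fun y hy => Gen.trans (fun x hx => z3 x hx) (hYY1 y hy)⟩

end defect

section seg
variable {α : Type u}

@[simp] theorem seg_length (w : ℤ → α) (a : ℤ) (n : ℕ) : (seg w a n).length = n := by
  simp [seg]

theorem seg_getElem (w : ℤ → α) (a : ℤ) (n : ℕ) (k : ℕ) (h : k < (seg w a n).length) :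
    (seg w a n)[k] = w (a + k) := by
  simp [seg]

theorem seg_add (w : ℤ → α) (a : ℤ) (n k : ℕ) :
    seg w a (n + k) = seg w a n ++ seg w (a + n) k := by
  unfold seg
  rw [List.range_add, List.map_append, List.map_map]
  congr 1
  apply List.map_congr_left
  intro t _
  simp [add_assoc]

theorem seg_eq_iff {w v : ℤ → α} {a b : ℤ} {n : ℕ} :
    seg w a n = seg v b n ↔ ∀ t : ℕ, t < n → w (a + t) = v (b + t) := by
  constructor
  · intro h t ht
    have h1 := seg_getElem w a n t (by simpa using ht)
    have h2 := seg_getElem v b n t (by simpa using ht)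
    rw [← h1, ← h2]
    simp only [h]
  · intro h
    apply List.ext_getElem (by simp)
    intro k h1 h2
    rw [seg_getElem, seg_getElem]
    exact h k (by simpa using h1)

/-- the right-infinite tail -/
def tail (w : ℤ → α) (a : ℤ) : ℕ → α := fun t => w (a + t)

theorem app_seg_tail (w : ℤ → α) (a : ℤ) (n : ℕ) : app (seg w a n) (tail w (a + n)) = tail w a := by
  funext t
  unfold app tail
  by_cases h : t < (seg w a n).length
  · rw [dif_pos h, seg_getElem]
  · rw [dif_neg h]
    rw [seg_length] at h ⊢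
    congr 1; push_cast [Nat.cast_sub (by omega : n ≤ t)]; ring

theorem Gen.reverse {Z : Set (List α)} {u : List α} (h : u ∈ Gen Z) :
    u.reverse ∈ Gen (List.reverse '' Z) := by
  obtain ⟨L, hL, rfl⟩ := h
  induction L with
  | nil => exact Gen.nil _
  | cons a L ih =>
    rw [List.flatten_cons, List.reverse_append]
    exact Gen.append (ih (fun w hw => hL w (by simp [hw])))
      (Gen.of_mem ⟨a, hL a (by simp), rfl⟩)

theorem seg_reverse (w : ℤ → α) (a : ℤ) (n : ℕ) :
    seg (fun t => w (-1 - t)) (-(a + n)) n = (seg w a n).reverse := by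
  apply List.ext_getElem (by simp)
  intro k h1 h2
  rw [seg_getElem, List.getElem_reverse, seg_getElem]
  rw [seg_length] at h1
  congr 1
  rw [seg_length]
  push_cast [Nat.cast_sub (by omega : k ≤ n - 1), Nat.cast_sub (by omega : 1 ≤ n)]
  ring

end seg

section vertices
variable {α : Type u}

theorem growth {c : ℤ → ℤ} (hc : StrictMono c) (i : ℤ) (n : ℕ) : c i + n ≤ c (i + n) := by
  induction n with
  | zero => simp
  | succ n ih =>
    have h1 : c (i + n) < c (i + (n + 1 : ℕ)) := hc (by push_cast; omega)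
    push_cast at h1 ⊢
    omega

theorem exists_idx {c : ℤ → ℤ} (hc : StrictMono c) (y : ℤ) : ∃ i, c i ≤ y ∧ y < c (i + 1) := by
  obtain ⟨i, hi, hmax⟩ := Int.exists_greatest_of_bdd (P := fun i => c i ≤ y) (by
    refine ⟨((y - c 0).toNat : ℤ), ?_⟩
    intro z hz
    by_contra hlt
    push Not at hlt
    have h1 := growth hc 0 z.toNat
    rw [zero_add, Int.toNat_of_nonneg (by omega)] at h1
    have h2 : c z ≤ y := hz
    omega) (by
    refine ⟨-((c 0 - y).toNat : ℤ), ?_⟩
    have h1 := growth hc (-((c 0 - y).toNat : ℤ)) (c 0 - y).toNat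
    rw [neg_add_cancel] at h1
    show c _ ≤ y
    omega)
  refine ⟨i, hi, ?_⟩
  by_contra h
  push Not at h
  have := hmax (i + 1) h
  omega

open Classical in
/-- the index of the block containing the position `y` -/
noncomputable def idx (c : ℤ → ℤ) (y : ℤ) : ℤ :=
  if h : ∃ i, c i ≤ y ∧ y < c (i + 1) then h.choose else 0

theorem idx_spec {c : ℤ → ℤ} (hc : StrictMono c) (y : ℤ) :
    c (idx c y) ≤ y ∧ y < c (idx c y + 1) := by
  have h := exists_idx hc y
  unfold idx
  rw [dif_pos h]
  exact h.choose_spec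

theorem idx_eq {c : ℤ → ℤ} (hc : StrictMono c) {y i : ℤ} (h1 : c i ≤ y) (h2 : y < c (i + 1)) :
    idx c y = i := by
  obtain ⟨h3, h4⟩ := idx_spec hc y
  have h5 : idx c y < i + 1 := hc.lt_iff_lt.mp (lt_of_le_of_lt h3 h2)
  have h6 : i < idx c y + 1 := hc.lt_iff_lt.mp (lt_of_le_of_lt h1 h4)
  omega

/-- The block containing the position `y`, cut at `y`; the second word is non-empty. -/
noncomputable def full (w : ℤ → α) (c : ℤ → ℤ) (y : ℤ) : List α × List α :=
  (seg w (c (idx c y)) (y - c (idx c y)).toNat, seg w y (c (idx c y + 1) - y).toNat)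

/-- The vertex at the position `y`: `([], [])` if `y` is a cut. -/
noncomputable def vert (w : ℤ → α) (c : ℤ → ℤ) (y : ℤ) : List α × List α :=
  if c (idx c y) = y then ([], []) else full w c y

theorem full_snd_ne {w : ℤ → α} {c : ℤ → ℤ} (hc : StrictMono c) (y : ℤ) :
    (full w c y).2 ≠ [] := by
  intro h
  have h1 : (full w c y).2.length = (c (idx c y + 1) - y).toNat := seg_length _ _ _
  rw [h] at h1
  have h2 := (idx_spec hc y).2
  simp at h1
  omega

theorem full_of_cut {w : ℤ → α} {c : ℤ → ℤ} (hc : StrictMono c) (i : ℤ) :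
    full w c (c i) = ([], block w (c i) (c (i + 1))) := by
  have h : idx c (c i) = i := idx_eq hc le_rfl (hc (by omega))
  unfold full block
  rw [h]
  simp [seg]

theorem vert_of_ne {w : ℤ → α} {c : ℤ → ℤ} {y : ℤ}
    (h : vert w c y ≠ ([], [])) : full w c y = vert w c y := by
  unfold vert at h ⊢
  split_ifs at h ⊢ with h1
  · exact absurd rfl h
  · rfl

theorem cut_of_eq {w : ℤ → α} {c : ℤ → ℤ} (hc : StrictMono c) {y : ℤ}
    (h : vert w c y = ([], [])) : c (idx c y) = y := by
  by_contra hne
  unfold vert at h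
  rw [if_neg hne] at h
  exact full_snd_ne (w := w) hc y (by rw [h])

/-- moving a vertex one step to the right -/
def G (v : List α × List α) : List α × List α :=
  if v.2.length = 1 then ([], []) else (v.1 ++ v.2.take 1, v.2.drop 1)

theorem vert_succ {w : ℤ → α} {c : ℤ → ℤ} (hc : StrictMono c) (y : ℤ) :
    vert w c (y + 1) = G (full w c y) := by
  obtain ⟨h1, h2⟩ := idx_spec hc y
  set i := idx c y with hi
  by_cases h3 : c (i + 1) = y + 1
  · have h4 : idx c (y + 1) = i + 1 := idx_eq hc (by omega) (by rw [← h3]; exact hc (by omega))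
    unfold vert G full
    rw [h4, if_pos h3, ← hi, if_pos]
    rw [seg_length, h3]
    omega
  · have h4 : idx c (y + 1) = i := idx_eq hc (by omega) (by omega)
    unfold vert G full
    rw [h4, if_neg (by omega), ← hi, if_neg (by rw [seg_length]; omega)]
    have e1 : (y + 1 - c i).toNat = (y - c i).toNat + 1 := by omega
    have e2 : (c (i + 1) - y).toNat = 1 + (c (i + 1) - (y + 1)).toNat := by omega
    have e3 : c i + ((y - c i).toNat : ℤ) = y := by omega
    rw [e1, e2, seg_add, seg_add, e3]
    rw [List.take_left' (by simp), List.drop_left' (by simp)]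
    rfl

theorem tail_full {w : ℤ → α} {c : ℤ → ℤ} (hc : StrictMono c) (y : ℤ) :
    tail w y = app (full w c y).2 (tail w (c (idx c y + 1))) := by
  have h2 := (idx_spec hc y).2
  have h3 : c (idx c y + 1) = y + ((c (idx c y + 1) - y).toNat : ℤ) := by omega
  unfold full
  conv_rhs => rw [show tail w (c (idx c y + 1)) = tail w (y + ((c (idx c y + 1) - y).toNat : ℤ)) by
    rw [← h3]]
  rw [app_seg_tail]

theorem tail_cut {w : ℤ → α} {c : ℤ → ℤ} (hc : StrictMono c) (i : ℤ) :
    tail w (c i) = app (block w (c i) (c (i + 1))) (tail w (c (i + 1))) := by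
  have h := tail_full (w := w) hc (c i)
  rw [full_of_cut hc] at h
  have h1 : idx c (c i) = i := idx_eq hc le_rfl (hc (by omega))
  rw [h1] at h
  exact h

/-- every vertex is a word of `X` cut at some place -/
theorem full_mem {X : Finset (List α)} {w : ℤ → α} {c : ℤ → ℤ} (hF : IsFactorization X w c)
    (y : ℤ) : ∃ x ∈ X, ∃ j ≤ x.length, full w c y = (x.take j, x.drop j) := by
  obtain ⟨h1, h2⟩ := idx_spec hF.strictMono y
  refine ⟨_, hF.mem (idx c y), (y - c (idx c y)).toNat, ?_, ?_⟩
  · rw [block, seg_length]; omega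
  · have e1 : (c (idx c y + 1) - c (idx c y)).toNat
      = (y - c (idx c y)).toNat + (c (idx c y + 1) - y).toNat := by omega
    have e3 : c (idx c y) + ((y - c (idx c y)).toNat : ℤ) = y := by omega
    unfold full block
    rw [e1, seg_add, e3, List.take_left' (by simp), List.drop_left' (by simp)]

/-- vertices are transferred by equal blocks -/
theorem exists_vert_eq {w : ℤ → α} {c₁ c₂ : ℤ → ℤ} (h₁ : StrictMono c₁) (h₂ : StrictMono c₂)
    (hcont : ∀ j, ∃ i, block w (c₁ i) (c₁ (i + 1)) = block w (c₂ j) (c₂ (j + 1))) (y : ℤ) :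
    ∃ y', vert w c₁ y' = vert w c₂ y := by
  obtain ⟨h3, h4⟩ := idx_spec h₂ y
  set j := idx c₂ y with hj
  by_cases hcut : c₂ j = y
  · refine ⟨c₁ 0, ?_⟩
    have e1 : idx c₁ (c₁ 0) = 0 := idx_eq h₁ le_rfl (h₁ (by omega))
    unfold vert
    rw [e1, if_pos rfl, ← hj, if_pos hcut]
  · obtain ⟨i, hi⟩ := hcont j
    have hlen : (c₁ (i + 1) - c₁ i).toNat = (c₂ (j + 1) - c₂ j).toNat := by
      have := congrArg List.length hi
      simpa [block] using this
    have hm1 : c₁ i < c₁ (i + 1) := h₁ (by omega)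
    refine ⟨c₁ i + (y - c₂ j), ?_⟩
    have e1 : idx c₁ (c₁ i + (y - c₂ j)) = i := idx_eq h₁ (by omega) (by omega)
    unfold vert full
    rw [e1, if_neg (by omega), ← hj, if_neg hcut]
    unfold block at hi
    have n1 : (c₁ (i + 1) - c₁ i).toNat = (y - c₂ j).toNat + (c₂ (j + 1) - y).toNat := by omega
    have n2 : (c₂ (j + 1) - c₂ j).toNat = (y - c₂ j).toNat + (c₂ (j + 1) - y).toNat := by omega
    rw [n1, n2, seg_add, seg_add] at hi
    obtain ⟨hi1, hi2⟩ := List.append_inj hi (by simp)
    have e3 : c₁ i + ((y - c₂ j).toNat : ℤ) = c₁ i + (y - c₂ j) := by omega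
    have e4 : c₂ j + ((y - c₂ j).toNat : ℤ) = y := by omega
    rw [e3, e4] at hi2
    have e5 : (c₁ i + (y - c₂ j) - c₁ i).toNat = (y - c₂ j).toNat := by omega
    have e6 : (c₁ (i + 1) - (c₁ i + (y - c₂ j))).toNat = (c₂ (j + 1) - y).toNat := by omega
    rw [e5, e6, hi1, hi2]

end vertices

section cycles
variable {α : Type u}

/-- A cycle of positions: the vertex of `c₂` at `a i` is the vertex of `c₁` at `a (i+1)`. -/
structure Cyc (w : ℤ → α) (c₁ c₂ : ℤ → ℤ) (k : ℕ) (a : ℕ → ℤ) : Prop where
  pos : 0 < k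
  per : ∀ i, a (i + k) = a i
  link : ∀ i, vert w c₂ (a i) = vert w c₁ (a (i + 1))

theorem Cyc.close {w : ℤ → α} {c₁ c₂ : ℤ → ℤ} {b : ℕ → ℤ}
    (hb : ∀ i, vert w c₂ (b i) = vert w c₁ (b (i + 1))) {p t : ℕ} (ht : 0 < t)
    (h : vert w c₂ (b (p + t)) = vert w c₂ (b p)) :
    Cyc w c₁ c₂ t (fun j => b (p + 1 + j % t)) := by
  refine ⟨ht, fun i => by simp only [Nat.add_mod_right], ?_⟩
  intro i
  have hlt : i % t < t := Nat.mod_lt _ ht
  have hdm := Nat.div_add_mod i t
  by_cases h1 : i % t + 1 = t
  · have h2 : (i + 1) % t = 0 := by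
      have : i + 1 = t * (i / t + 1) := by rw [mul_add, mul_one]; omega
      rw [this]; exact Nat.mul_mod_right _ _
    simp only [h2]
    rw [show p + 1 + i % t = p + t by omega, h, hb p]
  · have h2 : (i + 1) % t = i % t + 1 := by
      have : i + 1 = (i % t + 1) + t * (i / t) := by omega
      rw [this, Nat.add_mul_mod_self_left, Nat.mod_eq_of_lt (by omega)]
    simp only [h2]
    exact hb _

open Classical in
/-- there is a cycle -/
theorem exists_cyc {X : Finset (List α)} {w : ℤ → α} {c₁ c₂ : ℤ → ℤ}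
    (h₁ : IsFactorization X w c₁) (h₂ : IsFactorization X w c₂)
    (hcont : ∀ j, ∃ i, block w (c₁ i) (c₁ (i + 1)) = block w (c₂ j) (c₂ (j + 1))) :
    ∃ k a, Cyc w c₁ c₂ k a := by
  choose g hg using exists_vert_eq h₁.strictMono h₂.strictMono hcont
  let b : ℕ → ℤ := fun n => g^[n] 0
  have hb : ∀ i, vert w c₂ (b i) = vert w c₁ (b (i + 1)) := by
    intro i
    show vert w c₂ (g^[i] 0) = vert w c₁ (g^[i + 1] 0)
    rw [Function.iterate_succ_apply', hg]
  let V : Finset (List α × List α) := insert ([], [])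
    (X.biUnion fun x => (Finset.range (x.length + 1)).image fun j => (x.take j, x.drop j))
  have hV : ∀ n, vert w c₂ (b n) ∈ V := by
    intro n
    by_cases h : vert w c₂ (b n) = ([], [])
    · rw [h]; exact Finset.mem_insert_self _ _
    · rw [← vert_of_ne h]
      obtain ⟨x, hx, j, hj, he⟩ := full_mem h₂ (b n)
      rw [he]
      refine Finset.mem_insert_of_mem (Finset.mem_biUnion.mpr ⟨x, hx, ?_⟩)
      exact Finset.mem_image_of_mem _ (Finset.mem_range.mpr (by omega))
  obtain ⟨n, m, hnm, he⟩ := Finite.exists_ne_map_eq_of_infinite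
    (fun n : ℕ => (⟨vert w c₂ (b n), hV n⟩ : V))
  have he' : vert w c₂ (b n) = vert w c₂ (b m) := congrArg Subtype.val he
  rcases lt_or_gt_of_ne hnm with h | h
  · exact ⟨m - n, _, Cyc.close hb (p := n) (t := m - n) (by omega)
      (by rw [show n + (m - n) = m by omega]; exact he'.symm)⟩
  · exact ⟨n - m, _, Cyc.close hb (p := m) (t := n - m) (by omega)
      (by rw [show m + (n - m) = n by omega]; exact he')⟩

open Classical in
/-- In a minimal cycle the blocks following the cuts agree. -/
theorem Cyc.full_eq {X : Finset (List α)} (hne : ∀ x ∈ X, x ≠ [])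
    (hX : ∀ Z : Finset (List α), (∀ z ∈ Z, z ≠ []) → (∀ x ∈ X, x ∈ Gen (Z : Set (List α))) →
      X.card ≤ Z.card) {w : ℤ → α} {c₁ c₂ : ℤ → ℤ}
    (h₁ : IsFactorization X w c₁) (h₂ : IsFactorization X w c₂) {k : ℕ} {a : ℕ → ℤ}
    (ha : Cyc w c₁ c₂ k a) (hmin : ∀ k' a', Cyc w c₁ c₂ k' a' → k ≤ k') (i : ℕ) :
    full w c₂ (a i) = full w c₁ (a (i + 1)) := by
  by_cases hcut : vert w c₂ (a i) = ([], [])
  swap
  · rw [vert_of_ne hcut, vert_of_ne (by rw [← ha.link i]; exact hcut),
      ha.link i]
  have hcut₁ : vert w c₁ (a (i + 1)) = ([], []) := by rw [← ha.link i]; exact hcut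
  have hc2 := cut_of_eq h₂.strictMono hcut
  have hc1 := cut_of_eq h₁.strictMono hcut₁
  set x' := block w (c₂ (idx c₂ (a i))) (c₂ (idx c₂ (a i) + 1)) with hx'
  set x := block w (c₁ (idx c₁ (a (i + 1)))) (c₁ (idx c₁ (a (i + 1)) + 1)) with hx
  have hf2 : full w c₂ (a i) = ([], x') := by
    rw [hx', ← full_of_cut h₂.strictMono, hc2]
  have hf1 : full w c₁ (a (i + 1)) = ([], x) := by
    rw [hx, ← full_of_cut h₁.strictMono, hc1]
  have hx'X : x' ∈ X := h₂.mem _
  have hxX : x ∈ X := h₁.mem _
  rw [hf1, hf2]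
  by_contra hne'
  have hxx : x ≠ x' := fun h => hne' (by rw [h])
  let P : ℕ → List α := fun t => (full w c₁ (a (i + 1 + t))).2
  let Q : ℕ → List α := fun t => (full w c₂ (a (i + 1 + t))).2
  have hP0 : P 0 = x := by simp only [P, add_zero, hf1]
  have hQk : Q (k - 1) = x' := by
    have hk := ha.pos
    simp only [Q]
    rw [show i + 1 + (k - 1) = i + k by omega, ha.per, hf2]
  have hQP : ∀ t, t + 1 < k → Q t = P (t + 1) := by
    intro t ht
    have hne2 : vert w c₂ (a (i + 1 + t)) ≠ ([], []) := by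
      intro h
      have h3 := Cyc.close ha.link (p := i) (t := t + 1) (by omega)
        (by rw [hcut, ← h]; congr 2; omega)
      have := hmin _ _ h3
      omega
    have h3 : vert w c₁ (a (i + 1 + t + 1)) ≠ ([], []) := by
      rw [← ha.link (i + 1 + t)]; exact hne2
    show (full w c₂ (a (i + 1 + t))).2 = (full w c₁ (a (i + 1 + (t + 1)))).2
    rw [vert_of_ne hne2, ha.link, ← vert_of_ne h3]
    rfl
  set Y : Finset (List α) := X ∪ ((Finset.range k).image P ∪ (Finset.range k).image Q) with hY
  set T : Set (ℕ → α) := {u | ∃ j, u = tail w (c₁ j)} ∪ {u | ∃ j, u = tail w (c₂ j)} with hT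
  have hYne : ∀ y ∈ Y, y ≠ [] := by
    intro y hy
    rw [hY, Finset.mem_union, Finset.mem_union, Finset.mem_image, Finset.mem_image] at hy
    rcases hy with hy | ⟨t, _, rfl⟩ | ⟨t, _, rfl⟩
    · exact hne y hy
    · exact full_snd_ne h₁.strictMono _
    · exact full_snd_ne h₂.strictMono _
  have hTY : ∀ u ∈ T, ∃ z ∈ Y, ∃ u' ∈ T, u = app z u' := by
    intro u hu
    rcases hu with ⟨j, rfl⟩ | ⟨j, rfl⟩
    · exact ⟨_, Finset.mem_union_left _ (h₁.mem j), _, Or.inl ⟨j + 1, rfl⟩,
        tail_cut h₁.strictMono j⟩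
    · exact ⟨_, Finset.mem_union_left _ (h₂.mem j), _, Or.inr ⟨j + 1, rfl⟩,
        tail_cut h₂.strictMono j⟩
  have hPY : ∀ t < k, P t ∈ Y := fun t ht => Finset.mem_union_right _
    (Finset.mem_union_left _ (Finset.mem_image_of_mem _ (Finset.mem_range.mpr ht)))
  have hQY : ∀ t < k, Q t ∈ Y := fun t ht => Finset.mem_union_right _
    (Finset.mem_union_right _ (Finset.mem_image_of_mem _ (Finset.mem_range.mpr ht)))
  have hPQ : ∀ t < k, Rel Y T (P t) (Q t) := by
    intro t ht
    refine ⟨hPY t ht, hQY t ht, tail w (c₁ (idx c₁ (a (i + 1 + t)) + 1)), Or.inl ⟨_, rfl⟩,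
      tail w (c₂ (idx c₂ (a (i + 1 + t)) + 1)), Or.inr ⟨_, rfl⟩, ?_⟩
    show app (full w c₁ (a (i + 1 + t))).2 _ = app (full w c₂ (a (i + 1 + t))).2 _
    rw [← tail_full h₁.strictMono, ← tail_full h₂.strictMono]
  have hconn : ∀ t < k, Relation.EqvGen (Rel Y T) (P t) x ∧ Relation.EqvGen (Rel Y T) (Q t) x := by
    intro t
    induction t with
    | zero =>
      intro ht
      refine ⟨by rw [hP0]; exact Relation.EqvGen.refl _, ?_⟩
      rw [← hP0]
      exact Relation.EqvGen.symm _ _ (Relation.EqvGen.rel _ _ (hPQ 0 ht))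
    | succ t ih =>
      intro ht
      obtain ⟨_, i2⟩ := ih (by omega)
      rw [hQP t ht] at i2
      exact ⟨i2, Relation.EqvGen.trans _ _ _ (Relation.EqvGen.symm _ _
        (Relation.EqvGen.rel _ _ (hPQ (t + 1) ht))) i2⟩
  have hxS : x ∈ X.erase x' := Finset.mem_erase.mpr ⟨hxx, hxX⟩
  obtain ⟨Z, z1, z2, z3⟩ := graph_lemma _ Y hYne le_rfl T hTY (X.erase x')
    (fun y hy => Finset.mem_union_left _ (Finset.mem_of_mem_erase hy)) (by
      intro y hy
      rw [hY, Finset.mem_union, Finset.mem_union, Finset.mem_image, Finset.mem_image] at hy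
      rcases hy with hy | ⟨t, ht, rfl⟩ | ⟨t, ht, rfl⟩
      · by_cases hyx : y = x'
        · refine ⟨x, hxS, ?_⟩
          have hk := ha.pos
          rw [hyx, ← hQk]
          exact (hconn (k - 1) (by omega)).2
        · exact ⟨y, Finset.mem_erase.mpr ⟨hyx, hy⟩, Relation.EqvGen.refl _⟩
      · exact ⟨x, hxS, (hconn t (Finset.mem_range.mp ht)).1⟩
      · exact ⟨x, hxS, (hconn t (Finset.mem_range.mp ht)).2⟩)
  have h3 := hX Z z1 (fun y hy => z3 y (Finset.mem_union_left _ hy))
  have h4 := Finset.card_erase_lt_of_mem hx'X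
  omega

theorem Cyc.step_right {X : Finset (List α)} (hne : ∀ x ∈ X, x ≠ [])
    (hX : ∀ Z : Finset (List α), (∀ z ∈ Z, z ≠ []) → (∀ x ∈ X, x ∈ Gen (Z : Set (List α))) →
      X.card ≤ Z.card) {w : ℤ → α} {c₁ c₂ : ℤ → ℤ}
    (h₁ : IsFactorization X w c₁) (h₂ : IsFactorization X w c₂) {k : ℕ} {a : ℕ → ℤ}
    (ha : Cyc w c₁ c₂ k a) (hmin : ∀ k' a', Cyc w c₁ c₂ k' a' → k ≤ k') :
    Cyc w c₁ c₂ k (fun i => a i + 1) := by
  refine ⟨ha.pos, fun i => by simp only [ha.per], ?_⟩
  intro i
  rw [vert_succ h₂.strictMono, vert_succ h₁.strictMono, ha.full_eq hne hX h₁ h₂ hmin]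

/-- the reversed word -/
def wr (w : ℤ → α) : ℤ → α := fun t => w (-1 - t)

/-- the reversed factorization -/
def cr (c : ℤ → ℤ) : ℤ → ℤ := fun i => -c (-i)

theorem wr_wr (w : ℤ → α) : wr (wr w) = w := by
  funext t; simp only [wr]; congr 1; ring

theorem cr_cr (c : ℤ → ℤ) : cr (cr c) = c := by
  funext t; simp only [cr, neg_neg]

theorem cr_mono {c : ℤ → ℤ} (hc : StrictMono c) : StrictMono (cr c) := by
  intro i j hij
  have := hc (show -j < -i by omega)
  simp only [cr]; omega

theorem vert_rev {w : ℤ → α} {c : ℤ → ℤ} (hc : StrictMono c) (y : ℤ) :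
    vert (wr w) (cr c) (-y) = ((vert w c y).2.reverse, (vert w c y).1.reverse) := by
  obtain ⟨h1, h2⟩ := idx_spec hc y
  set i := idx c y with hi
  by_cases hcut : c i = y
  · have e1 : idx (cr c) (-y) = -i := by
      apply idx_eq (cr_mono hc)
      · simp only [cr, neg_neg]; omega
      · have := hc (show i - 1 < i by omega)
        simp only [cr]
        rw [show -(-i + 1) = i - 1 by ring]; omega
    unfold vert
    rw [e1, ← hi, if_pos hcut, if_pos (by simp only [cr, neg_neg]; omega)]
    rfl
  · have e1 : idx (cr c) (-y) = -i - 1 := by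
      apply idx_eq (cr_mono hc)
      · simp only [cr]
        rw [show -(-i - 1) = i + 1 by ring]; omega
      · simp only [cr]
        rw [show -(-i - 1 + 1) = i by ring]; omega
    have f1 : cr c (-i - 1) = -c (i + 1) := by
      simp only [cr]; rw [show -(-i - 1) = i + 1 by ring]
    have f2 : cr c (-i - 1 + 1) = -c i := by
      simp only [cr]; rw [show -(-i - 1 + 1) = i by ring]
    unfold vert
    rw [e1, ← hi, if_neg hcut, f1, if_neg (by omega)]
    unfold full
    rw [e1, ← hi, f1, f2]
    have g1 : (-y - -c (i + 1)).toNat = (c (i + 1) - y).toNat := by omega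
    have g2 : (-c i - -y).toNat = (y - c i).toNat := by omega
    rw [g1, g2, ← seg_reverse, ← seg_reverse]
    have g3 : -(y + ((c (i + 1) - y).toNat : ℤ)) = -c (i + 1) := by omega
    have g4 : -(c i + ((y - c i).toNat : ℤ)) = -y := by omega
    rw [g3, g4]
    rfl

theorem Cyc.rev {w : ℤ → α} {c₁ c₂ : ℤ → ℤ} (h₁ : StrictMono c₁) (h₂ : StrictMono c₂) {k : ℕ}
    {a : ℕ → ℤ} (ha : Cyc w c₁ c₂ k a) : Cyc (wr w) (cr c₁) (cr c₂) k (fun i => -a i) := by
  refine ⟨ha.pos, fun i => by simp only [ha.per], ?_⟩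
  intro i
  rw [vert_rev h₂, vert_rev h₁, ha.link]

open Classical in
theorem fact_rev {X : Finset (List α)} {w : ℤ → α} {c : ℤ → ℤ} (h : IsFactorization X w c) :
    IsFactorization (X.image List.reverse) (wr w) (cr c) := by
  refine ⟨cr_mono h.strictMono, ?_⟩
  intro i
  have hm := h.strictMono (show -(i + 1) < -(i + 1) + 1 by omega)
  have hmem := h.mem (-(i + 1))
  rw [show -(i + 1) + 1 = -i by ring] at hm hmem
  have : block (wr w) (cr c i) (cr c (i + 1)) = (block w (c (-(i + 1))) (c (-i))).reverse := by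
    unfold block
    rw [← seg_reverse]
    simp only [cr]
    rw [show (-c (-(i + 1)) - -c (-i)).toNat = (c (-i) - c (-(i + 1))).toNat by omega]
    rw [show -(c (-(i + 1)) + ((c (-i) - c (-(i + 1))).toNat : ℤ)) = -c (-i) by omega]
    rfl
  rw [this]
  exact Finset.mem_image_of_mem _ hmem

open Classical in
theorem Cyc.step_left {X : Finset (List α)} (hne : ∀ x ∈ X, x ≠ [])
    (hX : ∀ Z : Finset (List α), (∀ z ∈ Z, z ≠ []) → (∀ x ∈ X, x ∈ Gen (Z : Set (List α))) →
      X.card ≤ Z.card) {w : ℤ → α} {c₁ c₂ : ℤ → ℤ}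
    (h₁ : IsFactorization X w c₁) (h₂ : IsFactorization X w c₂) {k : ℕ} {a : ℕ → ℤ}
    (ha : Cyc w c₁ c₂ k a) (hmin : ∀ k' a', Cyc w c₁ c₂ k' a' → k ≤ k') :
    Cyc w c₁ c₂ k (fun i => a i - 1) := by
  have hm1 := h₁.strictMono
  have hm2 := h₂.strictMono
  have hrev := ha.rev hm1 hm2
  have hmin' : ∀ k' a', Cyc (wr w) (cr c₁) (cr c₂) k' a' → k ≤ k' := by
    intro k' a' h
    have h2 := h.rev (cr_mono hm1) (cr_mono hm2)
    rw [wr_wr, cr_cr, cr_cr] at h2
    exact hmin _ _ h2
  have hinj : Function.Injective (List.reverse : List α → List α) := List.reverse_injective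
  have hstep := hrev.step_right (X := X.image List.reverse) (by
      intro x hx
      obtain ⟨x', hx', rfl⟩ := Finset.mem_image.mp hx
      simpa using hne x' hx') (by
      intro Z hZ hXZ
      rw [Finset.card_image_of_injective _ hinj, ← Finset.card_image_of_injective Z hinj]
      apply hX
      · intro z hz
        obtain ⟨z', hz', rfl⟩ := Finset.mem_image.mp hz
        simpa using hZ z' hz'
      · intro x hx
        have h3 := Gen.reverse (hXZ x.reverse (Finset.mem_image_of_mem _ hx))
        rw [List.reverse_reverse] at h3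
        rwa [Finset.coe_image]) (fact_rev h₁) (fact_rev h₂) hmin'
  have h4 := hstep.rev (cr_mono hm1) (cr_mono hm2)
  rw [wr_wr, cr_cr, cr_cr] at h4
  have h5 : (fun i => -(-a i + 1)) = fun i => a i - 1 := by funext i; ring
  rwa [h5] at h4

end cycles

/-- Two factorizations of `w` are shift-equivalent if they are the same bi-infinite sequence of
words up to re-indexing. -/
def ShiftEquivalent {α : Type u} (w : ℤ → α) (c₁ c₂ : ℤ → ℤ) : Prop :=
  ∃ m : ℤ, ∀ i, block w (c₂ (i + m)) (c₂ (i + m + 1)) = block w (c₁ i) (c₁ (i + 1))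

/-- If `c₂` has the same pointed blocks as the translate of `c₁`, they are shift-equivalent. -/
theorem shift_of_full {α : Type u} {w : ℤ → α} {c₁ c₂ : ℤ → ℤ} (h₁ : StrictMono c₁)
    (h₂ : StrictMono c₂) (d : ℤ) (h : ∀ y, full w c₂ y = full w c₁ (y + d)) :
    ∃ m : ℤ, ∀ i, c₁ (i + m) = c₂ i + d ∧
      block w (c₁ (i + m)) (c₁ (i + m + 1)) = block w (c₂ i) (c₂ (i + 1)) := by
  have key : ∀ i, ∃ j, c₁ j = c₂ i + d ∧ c₁ (j + 1) = c₂ (i + 1) + d ∧
      block w (c₁ j) (c₁ (j + 1)) = block w (c₂ i) (c₂ (i + 1)) := by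
    intro i
    have hi := h (c₂ i)
    rw [full_of_cut h₂] at hi
    set j := idx c₁ (c₂ i + d) with hj
    obtain ⟨s1, s2⟩ := idx_spec h₁ (c₂ i + d)
    rw [← hj] at s1 s2
    unfold full at hi
    rw [← hj, Prod.mk.injEq] at hi
    obtain ⟨e1, e2⟩ := hi
    have l1 := congrArg List.length e1
    have l2 := congrArg List.length e2
    rw [seg_length] at l1
    rw [seg_length, block, seg_length] at l2
    have hm := h₂ (show i < i + 1 by omega)
    simp only [List.length_nil] at l1
    have f1 : c₁ j = c₂ i + d := by omega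
    have f2 : c₁ (j + 1) = c₂ (i + 1) + d := by omega
    refine ⟨j, f1, f2, ?_⟩
    rw [e2]
    unfold block
    rw [f1]
  choose J hJ1 hJ2 hJ3 using key
  have hsucc : ∀ i, J (i + 1) = J i + 1 := by
    intro i
    apply h₁.injective
    rw [hJ1, hJ2]
  have hJ : ∀ i, J i = i + J 0 := by
    intro i
    induction i using Int.induction_on with
    | zero => simp
    | succ n ih => rw [hsucc, ih]; ring
    | pred n ih =>
      have := hsucc (-(n : ℤ) - 1)
      rw [sub_add_cancel, ih] at this
      omega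
  refine ⟨J 0, fun i => ?_⟩
  rw [← hJ i]
  exact ⟨hJ1 i, hJ3 i⟩

/-- **Shift-equivalence of factorizations over sets of full combinatorial rank.**  Let `X` be a
finite set of non-empty words with combinatorial rank `|X|`, and let `c₁, c₂` be two
`X`-factorizations of a bi-infinite word `w`.

1. If each of them contains every element of `X`, they are shift-equivalent.
2. In fact it is enough that every block of `c₂` is a block of `c₁`. -/
theorem result (α : Type u) (X : Finset (List α)) (hne : ∀ x ∈ X, x ≠ [])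
    (hrank : combRank X = X.card) (w : ℤ → α) (c₁ c₂ : ℤ → ℤ)
    (h₁ : IsFactorization X w c₁) (h₂ : IsFactorization X w c₂) :
    ((∀ x ∈ X, (∃ i, block w (c₁ i) (c₁ (i + 1)) = x) ∧ ∃ i, block w (c₂ i) (c₂ (i + 1)) = x) →
      ShiftEquivalent w c₁ c₂) ∧
    ((∀ j, ∃ i, block w (c₁ i) (c₁ (i + 1)) = block w (c₂ j) (c₂ (j + 1))) →
      ShiftEquivalent w c₁ c₂) := by
  have main : (∀ j, ∃ i, block w (c₁ i) (c₁ (i + 1)) = block w (c₂ j) (c₂ (j + 1))) →
      ShiftEquivalent w c₁ c₂ := by
    classical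
    intro hcont
    have hX : ∀ Z : Finset (List α), (∀ z ∈ Z, z ≠ []) →
        (∀ x ∈ X, x ∈ Gen (Z : Set (List α))) → X.card ≤ Z.card := by
      intro Z h1 h2
      rw [← hrank]
      exact Nat.sInf_le ⟨Z, h1, h2, rfl⟩
    have hex : ∃ k, ∃ a, Cyc w c₁ c₂ k a := exists_cyc h₁ h₂ hcont
    obtain ⟨a, ha⟩ := Nat.find_spec hex
    set k := Nat.find hex with hk
    have hmin : ∀ k' a', Cyc w c₁ c₂ k' a' → k ≤ k' := fun k' a' h =>
      Nat.find_min' hex ⟨a', h⟩
    have hright : ∀ n : ℕ, Cyc w c₁ c₂ k (fun i => a i + n) := by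
      intro n
      induction n with
      | zero => simpa using ha
      | succ n ih =>
        have h3 := ih.step_right hne hX h₁ h₂ hmin
        have h5 : (fun i => a i + n + 1) = fun i => a i + ((n + 1 : ℕ) : ℤ) := by
          funext i; push_cast; ring
        rwa [h5] at h3
    have hleft : ∀ n : ℕ, Cyc w c₁ c₂ k (fun i => a i - n) := by
      intro n
      induction n with
      | zero => simpa using ha
      | succ n ih =>
        have h3 := ih.step_left hne hX h₁ h₂ hmin
        have h5 : (fun i => a i - n - 1) = fun i => a i - ((n + 1 : ℕ) : ℤ) := by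
          funext i; push_cast; ring
        rwa [h5] at h3
    have hall : ∀ t : ℤ, Cyc w c₁ c₂ k (fun i => a i + t) := by
      intro t
      rcases le_total 0 t with ht | ht
      · have h3 := hright t.toNat
        rwa [Int.toNat_of_nonneg ht] at h3
      · have h3 := hleft (-t).toNat
        rw [Int.toNat_of_nonneg (by omega)] at h3
        simpa [sub_neg_eq_add] using h3
    have hfull : ∀ y, full w c₂ y = full w c₁ (y + (a 1 - a 0)) := by
      intro y
      have h3 := (hall (y - a 0)).full_eq hne hX h₁ h₂ hmin 0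
      simp only [zero_add] at h3
      rw [show a 0 + (y - a 0) = y by ring, show a 1 + (y - a 0) = y + (a 1 - a 0) by ring] at h3
      exact h3
    obtain ⟨m, hm⟩ := shift_of_full h₁.strictMono h₂.strictMono _ hfull
    refine ⟨-m, fun i => ?_⟩
    have h3 := (hm (i + -m)).2
    rw [show i + -m + m = i by ring] at h3
    exact h3.symm
  refine ⟨fun h => main fun j => ?_, main⟩
  exact (h _ (h₂.mem j)).1

end Pool.Agent.Results.MP_e67e26_co.ShiftEquivalence
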